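import Pool.Agent.H48.CBR.ShMain

/-!
# The Cantor-Bendixson rank of the space of `d`-dimensional shifts is at least `ω ^ (d - 1)`

Let `X` be the symbolic `×2 ×3` system, a shift of finite type on `ℤ²`. By Furstenberg's theorem its proper
subsystems are finite, and it has infinitely many finite orbits. For `k = d - 1` consider the `d`-dimensional shift of
finite type `W` which consists of `k` points of `X` and of a label from a finite set with `n` elements; the `i`-th
point of `X` is placed on the coordinate plane of the axes `0` and `i + 1`, so the `k` copies share the axis `0`
(multiplication by `2`).

* The closed invariant subsets of `W` satisfy the descending chain condition. This is proved by induction on the number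
of copies for a class of systems (`Good`) which contains all the systems where the first generator is replaced by a
power: the descending chain condition, recurrence in the past along the first generator up to the other ones, and
density of the points which are periodic for the first generator (relative to closed invariant sets). The main point is
that a point `(x, y)` of a closed invariant set whose fibre over `y` is not full has `x` periodic.
* So every subsystem `Y` of `W` is of finite type, the shifts near `Y` are contained in `Y`, and a minimal element of
the nonempty set `CB d α ∩ {Y : Y ⊆ W}` is isolated in `CB d α`; so the derivatives strictly decrease as long as they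
contain a subsystem of `W`.
* If a product `B` of `j` full factors and `k - j` finite orbits is not contained in a shift `Y ∈ CB d α`, then
`Y ∪ B ∈ CB d (α + ω ^ (j - 1))` (`j ≥ 1`), by approximation with unions of products with `j - 1` full factors. So the
union of the `n` copies of `X ^ k` is in `CB d (ω ^ (k - 1) * (n - 1))`.
-/

set_option autoImplicit false

namespace Pool.Agent.Results.MP_73a9ed_an.RankLowerBound

open Pool.Agent.H48.CBR
open scoped Ordinal

/-- For every `d ≥ 2` the Cantor-Bendixson rank of the space of `d`-dimensional shifts is at least `ω ^ (d - 1)`. In
particular it is at least `ω ^ 2`, hence different from `ω`, if `d ≥ 3`. -/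
theorem result (d : ℕ) (hd : 2 ≤ d) : ω ^ (d - 1) ≤ rank d ∧ (3 ≤ d → ω < rank d) := by
  refine ⟨Sh.main d hd, fun h3 => ?_⟩
  have h1 : (ω : Ordinal.{0}) < ω ^ 2 := by
    rw [pow_two]
    calc (ω : Ordinal.{0}) = ω * 1 := (mul_one _).symm
      _ < ω * ω := by
        gcongr
        · exact Ordinal.omega0_pos
        · exact Ordinal.one_lt_omega0
  have h2 : (ω : Ordinal.{0}) ^ 2 ≤ ω ^ (d - 1) := by
    apply pow_le_pow_right₀
    · exact Ordinal.one_lt_omega0.le
    · omega
  exact h1.trans_le (h2.trans (Sh.main d hd))

end Pool.Agent.Results.MP_73a9ed_an.RankLowerBound
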